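import Mathlib
import Pool.Agent.Lib.MP_fe2d2a_anNE.Block

/-!
The block lemma for the angles whose product is `X ^ (2 * N) + 2 c X ^ N + 1`, `c ≥ 0`, `N ≥ 1` odd.
-/

set_option autoImplicit false

open Polynomial

namespace Pool.Agent.MP_fe2d2a_anTL

open Pool.Agent.MP_fe2d2a_anEC Pool.Agent.MP_fe2d2a_anNE Pool.Agent.MP_fe2d2a_anR

/-- Division by a quadratic factor. -/
lemma F_div (b : ℝ) (Q : ℝ[X]) (m : ℕ) :
    Real.sin b * Q.coeff m =
      ∑ l ∈ Finset.range (m + 1), ((X ^ 2 - C (2 * Real.cos b) * X + 1) * Q).coeff l *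
        Real.sin (((m : ℝ) + 1 - l) * b) := by
  set P := (X ^ 2 - C (2 * Real.cos b) * X + 1) * Q with hP
  have h0 : P.coeff 0 = Q.coeff 0 := by
    rw [hP, mul_coeff_zero]
    simp
  have h1 : P.coeff 1 = Q.coeff 1 - 2 * Real.cos b * Q.coeff 0 := by
    rw [hP]
    have e : (X ^ 2 - C (2 * Real.cos b) * X + 1) * Q =
        X ^ 2 * Q - C (2 * Real.cos b) * (X * Q) + Q := by ring
    rw [e, coeff_add, coeff_sub, coeff_C_mul, coeff_X_pow_mul', coeff_X_mul (n := 0), if_neg (by omega)]
    ring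
  have h2 : ∀ n, P.coeff (n + 2) = Q.coeff (n + 2) - 2 * Real.cos b * Q.coeff (n + 1) + Q.coeff n := by
    intro n
    rw [hP]
    have e : (X ^ 2 - C (2 * Real.cos b) * X + 1) * Q =
        X ^ 2 * Q - C (2 * Real.cos b) * (X * Q) + Q := by ring
    rw [e, coeff_add, coeff_sub, coeff_C_mul, coeff_X_pow_mul', coeff_X_mul, if_pos (by omega),
      show n + 2 - 2 = n by omega]
    ring
  suffices h : (∀ m, (Real.sin b * Q.coeff m =
      ∑ l ∈ Finset.range (m + 1), P.coeff l * Real.sin (((m : ℝ) + 1 - l) * b)) ∧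
      (Real.sin b * Q.coeff (m + 1) =
      ∑ l ∈ Finset.range (m + 2), P.coeff l * Real.sin (((m : ℝ) + 2 - l) * b))) from (h m).1
  intro m
  induction m with
  | zero =>
    constructor
    · rw [Finset.sum_range_one, h0]
      push_cast
      rw [show ((0 : ℝ) + 1 - 0) * b = b by ring]
      ring
    · rw [Finset.sum_range_succ, Finset.sum_range_one, h0, h1]
      push_cast
      rw [show ((0 : ℝ) + 2 - 0) * b = 2 * b by ring, show ((0 : ℝ) + 2 - 1) * b = b by ring,
        Real.sin_two_mul]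
      ring
  | succ m ih =>
    obtain ⟨i1, i2⟩ := ih
    constructor
    · rw [i2]
      refine Finset.sum_congr rfl fun l _ => ?_
      push_cast
      rw [show ((m : ℝ) + 1 + 1 - l) * b = ((m : ℝ) + 2 - l) * b by ring]
    · have e1 : Real.sin b * Q.coeff (m + 1 + 1) = Real.sin b * P.coeff (m + 2) +
          2 * Real.cos b * (Real.sin b * Q.coeff (m + 1)) - Real.sin b * Q.coeff m := by
        rw [h2 m, show m + 1 + 1 = m + 2 by ring]
        ring
      rw [e1, i1, i2]
      rw [Finset.sum_range_succ (n := m + 2)]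
      have e2 : P.coeff (m + 2) * Real.sin ((((m + 1 : ℕ) : ℝ) + 2 - ((m + 2 : ℕ) : ℝ)) * b) =
          Real.sin b * P.coeff (m + 2) := by
        push_cast
        rw [show ((m : ℝ) + 1 + 2 - (m + 2)) * b = b by ring]
        ring
      rw [e2]
      have e3 : ∑ l ∈ Finset.range (m + 2), P.coeff l * Real.sin ((((m + 1 : ℕ) : ℝ) + 2 - l) * b) =
          2 * Real.cos b * (∑ l ∈ Finset.range (m + 2), P.coeff l * Real.sin (((m : ℝ) + 2 - l) * b)) -
            ∑ l ∈ Finset.range (m + 1), P.coeff l * Real.sin (((m : ℝ) + 1 - l) * b) := by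
        have e4 : ∑ l ∈ Finset.range (m + 1), P.coeff l * Real.sin (((m : ℝ) + 1 - l) * b) =
            ∑ l ∈ Finset.range (m + 2), P.coeff l * Real.sin (((m : ℝ) + 1 - l) * b) := by
          rw [Finset.sum_range_succ (n := m + 1)]
          push_cast
          rw [show ((m : ℝ) + 1 - (m + 1)) * b = 0 by ring, Real.sin_zero, mul_zero, add_zero]
        rw [e4, Finset.mul_sum, ← Finset.sum_sub_distrib]
        refine Finset.sum_congr rfl fun l _ => ?_
        push_cast
        have e5 : Real.sin (((m : ℝ) + 1 + 2 - l) * b) =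
            2 * Real.cos b * Real.sin (((m : ℝ) + 2 - l) * b) - Real.sin (((m : ℝ) + 1 - l) * b) := by
          have e6 : ((m : ℝ) + 1 + 2 - l) * b = ((m : ℝ) + 2 - l) * b + b := by ring
          have e7 : ((m : ℝ) + 1 - l) * b = ((m : ℝ) + 2 - l) * b - b := by ring
          rw [e6, e7, Real.sin_add, Real.sin_sub]
          ring
        rw [e5]
        ring
      rw [e3]
      ring

/-- The derivative in terms of the coefficients of the product. -/
lemma F_wv {ι : Type*} [DecidableEq ι] (a : ι → ℝ) (A : Finset ι) (i : ℕ) :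
    ∑ k ∈ A, 2 * Real.sin (a k) * (QP (fun k => Real.cos (a k)) (A.erase k)).coeff i =
      2 * ∑ k ∈ A, ∑ l ∈ Finset.range (i + 1), (QP (fun k => Real.cos (a k)) A).coeff l *
      Real.sin (((i : ℝ) + 1 - l) * a k) := by
  rw [Finset.mul_sum]
  refine Finset.sum_congr rfl fun k hk => ?_
  rw [mul_assoc, F_div (a k), QP_erase (fun k => Real.cos (a k)) hk]

/-- The product over the `N`-th roots. -/
lemma F_prod (a : ℝ) {N : ℕ} (hN : 0 < N) (β : ℕ → ℝ)
    (hβ : ∀ m, m < N → Real.cos (β m) = Real.cos ((a + 2 * Real.pi * m) / N)) :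
    ∏ m ∈ Finset.range N, (X ^ 2 - C (2 * Real.cos (β m)) * X + 1 : ℝ[X]) =
      expand ℝ N (X ^ 2 - C (2 * Real.cos a) * X + 1) := by
  have hN0 : (N : ℂ) ≠ 0 := by exact_mod_cast hN.ne'
  apply Polynomial.map_injective (algebraMap ℝ ℂ) (algebraMap ℝ ℂ).injective
  set ζ : ℂ := Complex.exp (2 * Real.pi * Complex.I / N) with hζd
  set α : ℂ := Complex.exp (a * Complex.I / N) with hαd
  have hζ : IsPrimitiveRoot ζ N := Complex.isPrimitiveRoot_exp N hN.ne'
  have hα0 : α ≠ 0 := Complex.exp_ne_zero _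
  have hζ0 : ζ ≠ 0 := Complex.exp_ne_zero _
  have e1 := X_pow_sub_C_eq_prod hζ (α := α) (a := Complex.exp (a * Complex.I)) hN (by
    rw [hαd, ← Complex.exp_nat_mul]
    congr 1
    field_simp)
  have e2 := X_pow_sub_C_eq_prod hζ.inv (α := α⁻¹) (a := Complex.exp (-(a * Complex.I))) hN (by
    rw [hαd, ← Complex.exp_neg, ← Complex.exp_nat_mul]
    congr 1
    field_simp)
  have hz : ∀ m : ℕ, ζ ^ m * α = Complex.exp (((a + 2 * Real.pi * m) / N : ℝ) * Complex.I) := by
    intro m
    rw [hζd, hαd, ← Complex.exp_nat_mul, ← Complex.exp_add]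
    congr 1
    push_cast
    field_simp
    ring
  rw [Polynomial.map_prod, Polynomial.map_expand]
  have e3 : (Polynomial.map (algebraMap ℝ ℂ) (X ^ 2 - C (2 * Real.cos a) * X + 1 : ℝ[X])) =
      X ^ 2 - C (Complex.exp (a * Complex.I) + Complex.exp (-(a * Complex.I))) * X + 1 := by
    rw [Polynomial.map_add, Polynomial.map_sub, Polynomial.map_pow, Polynomial.map_mul, Polynomial.map_X,
      Polynomial.map_C, Polynomial.map_one]
    congr 4
    have := Complex.two_cos a
    rw [Complex.coe_algebraMap]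
    push_cast
    rw [this, neg_mul]
  rw [e3]
  have e4 : expand ℂ N (X ^ 2 - C (Complex.exp (a * Complex.I) + Complex.exp (-(a * Complex.I))) * X + 1) =
      (X ^ N - C (Complex.exp (a * Complex.I))) * (X ^ N - C (Complex.exp (-(a * Complex.I)))) := by
    have h1 : Complex.exp (a * Complex.I) * Complex.exp (-(a * Complex.I)) = 1 := by
      rw [← Complex.exp_add, add_neg_cancel, Complex.exp_zero]
    rw [map_add, map_sub, map_mul, map_pow, expand_X, expand_C, map_one, C_add]
    have h2 : C (Complex.exp (a * Complex.I)) * C (Complex.exp (-(a * Complex.I))) = (1 : ℂ[X]) := by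
      rw [← C_mul, h1, C_1]
    linear_combination -h2
  rw [e4, e1, e2, ← Finset.prod_mul_distrib]
  refine Finset.prod_congr rfl fun m hm => ?_
  have h3 : ζ ^ m * α * (ζ⁻¹ ^ m * α⁻¹) = 1 := by
    rw [inv_pow]
    field_simp
  have h4 : (2 * Real.cos (β m) : ℂ) = ζ ^ m * α + ζ⁻¹ ^ m * α⁻¹ := by
    have h5 : ζ⁻¹ ^ m * α⁻¹ = (ζ ^ m * α)⁻¹ := by
      rw [inv_pow, mul_inv]
    rw [h5, hz m, ← Complex.exp_neg, hβ m (Finset.mem_range.1 hm)]
    have := Complex.two_cos (((a + 2 * Real.pi * m) / N : ℝ) : ℂ)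
    push_cast at this ⊢
    rw [this, neg_mul]
  rw [Polynomial.map_add, Polynomial.map_sub, Polynomial.map_pow, Polynomial.map_mul, Polynomial.map_X,
    Polynomial.map_C, Polynomial.map_one]
  have h6 : C ((algebraMap ℝ ℂ) (2 * Real.cos (β m))) = C (ζ ^ m * α) + C (ζ⁻¹ ^ m * α⁻¹) := by
    rw [← C_add, ← h4]
    congr 1
    rw [Complex.coe_algebraMap]
    push_cast
    rfl
  have h7 : C (ζ ^ m * α) * C (ζ⁻¹ ^ m * α⁻¹) = (1 : ℂ[X]) := by
    rw [← C_mul, h3, C_1]
  rw [h6]
  linear_combination -h7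

lemma eval_key {τ : Type*} (w : τ → ℝ) (S : Finset τ) (z : ℝ) (hz : 0 < z) :
    (∏ k ∈ S, (X ^ 2 - C (2 * w k) * X + 1 : ℝ[X])).eval z =
      z ^ S.card * (∏ k ∈ S, (X - C (2 * w k))).eval (z + z⁻¹) := by
  rw [eval_prod, eval_prod, ← Finset.prod_const, ← Finset.prod_mul_distrib]
  refine Finset.prod_congr rfl fun k _ => ?_
  simp only [eval_add, eval_sub, eval_mul, eval_pow, eval_X, eval_C, eval_one]
  field_simp
  ring

/-- The product determines the multiset of the cosines. -/
lemma map_eq_of_QP_eq {ι κ : Type*} (u : ι → ℝ) (A : Finset ι) (v : κ → ℝ) (B : Finset κ)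
    (hc : A.card = B.card)
    (h : ∏ k ∈ A, (X ^ 2 - C (2 * u k) * X + 1 : ℝ[X]) = ∏ k ∈ B, (X ^ 2 - C (2 * v k) * X + 1)) :
    A.val.map u = B.val.map v := by
  have h1 : ∏ k ∈ A, (X - C (2 * u k)) = ∏ k ∈ B, (X - C (2 * v k) : ℝ[X]) := by
    apply Polynomial.eq_of_infinite_eval_eq
    apply Set.Infinite.mono _ (Set.Ici_infinite (2 : ℝ))
    intro y hy
    have hy2 : (2 : ℝ) ≤ y := hy
    have hd : 0 ≤ y ^ 2 - 4 := by nlinarith
    set z : ℝ := (y + Real.sqrt (y ^ 2 - 4)) / 2 with hz
    have hz0 : 0 < z := by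
      rw [hz]
      have := Real.sqrt_nonneg (y ^ 2 - 4)
      linarith
    have hzz : z + z⁻¹ = y := by
      have h2 : z ^ 2 - y * z + 1 = 0 := by
        rw [hz]
        have := Real.sq_sqrt hd
        nlinarith
      field_simp
      linarith
    have e1 := eval_key u A z hz0
    have e2 := eval_key v B z hz0
    rw [h, e2, hc, hzz] at e1
    exact (mul_left_cancel₀ (pow_pos hz0 _).ne' e1).symm
  have h2 : A.val.map (fun k => 2 * u k) = B.val.map (fun k => 2 * v k) := by
    have e1 : (∏ k ∈ A, (X - C (2 * u k) : ℝ[X])) =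
        ((A.val.map (fun k => 2 * u k)).map (fun r => (X - C r : ℝ[X]))).prod := by
      rw [Multiset.map_map]
      rfl
    have e2 : (∏ k ∈ B, (X - C (2 * v k) : ℝ[X])) =
        ((B.val.map (fun k => 2 * v k)).map (fun r => (X - C r : ℝ[X]))).prod := by
      rw [Multiset.map_map]
      rfl
    rw [e1, e2] at h1
    have h3 := congrArg Polynomial.roots h1
    rwa [roots_multiset_prod_X_sub_C, roots_multiset_prod_X_sub_C] at h3
  have h3 := congrArg (Multiset.map (fun r : ℝ => r / 2)) h2
  rw [Multiset.map_map, Multiset.map_map] at h3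
  have e3 : ((fun r : ℝ => r / 2) ∘ fun k => 2 * u k) = u := by
    funext k
    simp only [Function.comp_apply]
    ring
  have e4 : ((fun r : ℝ => r / 2) ∘ fun k => 2 * v k) = v := by
    funext k
    simp only [Function.comp_apply]
    ring
  rwa [e3, e4] at h3

lemma F_tel (φ ω : ℝ) (M : ℕ) :
    2 * Real.sin (ω / 2) * ∑ m ∈ Finset.range M, Real.sin (φ + m * ω) =
      Real.cos (φ - ω / 2) - Real.cos (φ + ((M : ℝ) - 1 / 2) * ω) := by
  induction M with
  | zero =>
    rw [Finset.sum_range_zero]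
    push_cast
    rw [show φ + ((0 : ℝ) - 1 / 2) * ω = φ - ω / 2 by ring]
    ring
  | succ M ih =>
    rw [Finset.sum_range_succ, mul_add, ih]
    push_cast
    have e1 : φ + ((M : ℝ) - 1 / 2) * ω = φ + M * ω - ω / 2 := by ring
    have e2 : φ + ((M : ℝ) + 1 - 1 / 2) * ω = φ + M * ω + ω / 2 := by ring
    rw [e1, e2, Real.cos_sub (φ + M * ω), Real.cos_add (φ + M * ω)]
    ring

/-- The angles. -/
noncomputable def F_b (M : ℕ) (a : ℝ) (m : ℕ) : ℝ :=
  if m ≤ M then (a + 2 * Real.pi * m) / (2 * M + 1) else (2 * Real.pi * (2 * M + 1 - m) - a) / (2 * M + 1)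

lemma F_b_cos (M : ℕ) (a : ℝ) (m : ℕ) :
    Real.cos (F_b M a m) = Real.cos ((a + 2 * Real.pi * m) / ((2 * M + 1 : ℕ) : ℝ)) := by
  have h0 : (2 * (M : ℝ) + 1) ≠ 0 := by positivity
  unfold F_b
  push_cast
  split_ifs with h
  · rfl
  · have e : (2 * Real.pi * (2 * M + 1 - m) - a) / (2 * M + 1) =
        2 * Real.pi - (a + 2 * Real.pi * m) / (2 * (M : ℝ) + 1) := by
      field_simp
      ring
    rw [e, Real.cos_two_pi_sub]

lemma F_b_mem {M : ℕ} {a : ℝ} (h0 : 0 < a) (h1 : a < Real.pi) {m : ℕ} (hm : m < 2 * M + 1) :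
    0 < F_b M a m ∧ F_b M a m < Real.pi := by
  have hp : (0 : ℝ) < 2 * M + 1 := by positivity
  have hpi := Real.pi_pos
  unfold F_b
  split_ifs with h
  · have hm' : (m : ℝ) ≤ M := by exact_mod_cast h
    refine ⟨by positivity, ?_⟩
    rw [div_lt_iff₀ hp]
    nlinarith [mul_le_mul_of_nonneg_left hm' hpi.le]
  · push Not at h
    have hm1 : (M : ℝ) + 1 ≤ m := by exact_mod_cast h
    have hm2 : (m : ℝ) ≤ 2 * M := by
      have : m ≤ 2 * M := by omega
      exact_mod_cast this
    constructor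
    · apply div_pos _ hp
      nlinarith [mul_le_mul_of_nonneg_left hm2 hpi.le]
    · rw [div_lt_iff₀ hp]
      nlinarith [mul_le_mul_of_nonneg_left hm1 hpi.le]

/-- `N` times the angle. -/
lemma F_b_N (M : ℕ) (a : ℝ) (m : ℕ) (hm : m < 2 * M + 1) (n : ℕ) (hn : n = 2 * M + 1) :
    Real.cos (n * F_b M a m) = Real.cos a := by
  have h0 : (2 * (M : ℝ) + 1) ≠ 0 := by positivity
  unfold F_b
  rw [hn]
  push_cast
  split_ifs with h
  · rw [mul_div_cancel₀ _ h0, show a + 2 * Real.pi * m = a + m * (2 * Real.pi) by ring,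
      Real.cos_add_nat_mul_two_pi]
  · rw [mul_div_cancel₀ _ h0]
    have e : 2 * Real.pi * (2 * (M : ℝ) + 1 - m) - a =
        ((2 * M + 1 - m : ℕ) : ℝ) * (2 * Real.pi) - a := by
      rw [Nat.cast_sub (by omega)]
      push_cast
      ring
    rw [e, Real.cos_nat_mul_two_pi_sub]

/-- **The sum over the angles.** -/
lemma F_sum (M : ℕ) (a : ℝ) (q : ℕ) :
    Real.sin (Real.pi * q / (2 * M + 1)) * ∑ m ∈ Finset.range (2 * M + 1), Real.sin (q * F_b M a m) =
      Real.cos (q * (Real.pi - a) / (2 * M + 1)) - (-1) ^ q * Real.cos (q * a / (2 * M + 1)) := by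
  have hp : (0 : ℝ) < 2 * M + 1 := by positivity
  set N : ℝ := 2 * (M : ℝ) + 1 with hN
  set φ : ℝ := q * a / N with hφ
  set ω : ℝ := 2 * Real.pi * q / N with hω
  have e1 : ∑ m ∈ Finset.range (2 * M + 1), Real.sin (q * F_b M a m) =
      ∑ m ∈ Finset.range (M + 1), Real.sin (φ + m * ω) +
        ∑ m ∈ Finset.range M, Real.sin ((ω - φ) + m * ω) := by
    rw [show 2 * M + 1 = (M + 1) + M by ring, Finset.sum_range_add]
    congr 1
    · refine Finset.sum_congr rfl fun m hm => ?_
      have hm' : m ≤ M := by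
        have := Finset.mem_range.1 hm
        omega
      congr 1
      unfold F_b
      rw [if_pos hm', hφ, hω, ← hN]
      field_simp
    · rw [← Finset.sum_range_reflect]
      refine Finset.sum_congr rfl fun m hm => ?_
      have hm' := Finset.mem_range.1 hm
      have e0 : ((M + 1 + (M - 1 - m) : ℕ) : ℝ) = 2 * M - m := by
        have : (M + 1 + (M - 1 - m)) + m = 2 * M := by omega
        have h2 : ((M + 1 + (M - 1 - m) : ℕ) : ℝ) + m = 2 * M := by exact_mod_cast this
        linarith
      congr 1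
      unfold F_b
      rw [if_neg (by omega), e0, hφ, hω, ← hN]
      have : (2 : ℝ) * M = N - 1 := by rw [hN]; ring
      rw [this]
      field_simp
      ring
  have e2 := F_tel φ ω (M + 1)
  have e3 := F_tel (ω - φ) ω M
  have h2 : ((M : ℝ) + 1 / 2) * ω = q * Real.pi := by
    rw [hω]
    have : (M : ℝ) = (N - 1) / 2 := by rw [hN]; ring
    rw [this]
    field_simp
    ring
  have h3 : φ + (((M + 1 : ℕ) : ℝ) - 1 / 2) * ω = φ + q * Real.pi := by
    push_cast
    linear_combination h2
  have h4 : ω - φ + ((M : ℝ) - 1 / 2) * ω = q * Real.pi - φ := by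
    linear_combination h2
  rw [h3, Real.cos_add_nat_mul_pi] at e2
  rw [h4, Real.cos_nat_mul_pi_sub, show ω - φ - ω / 2 = -(φ - ω / 2) by ring, Real.cos_neg] at e3
  have h5 : Real.pi * q / N = ω / 2 := by
    rw [hω]
    ring
  have h6 : q * (Real.pi - a) / N = -(φ - ω / 2) := by
    rw [hφ, hω]
    field_simp
    ring
  rw [e1, h5, h6, Real.cos_neg]
  linear_combination e2 / 2 + e3 / 2

/-- The sums are positive. -/
lemma F_sum_pos (M : ℕ) {a : ℝ} (h0 : Real.pi / 2 < a) (h1 : a < Real.pi) (q : ℕ) (hq : 0 < q)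
    (hq' : q ≤ 2 * M + 1) :
    0 < ∑ m ∈ Finset.range (2 * M + 1), Real.sin (q * F_b M a m) := by
  have hp : (0 : ℝ) < 2 * M + 1 := by positivity
  have hpi := Real.pi_pos
  have hq0 : (0 : ℝ) < q := by exact_mod_cast hq
  rcases hq'.lt_or_eq with h | h
  · have hqN : (q : ℝ) < 2 * M + 1 := by exact_mod_cast h
    have hs : 0 < Real.sin (Real.pi * q / (2 * M + 1)) := by
      apply Real.sin_pos_of_pos_of_lt_pi
      · positivity
      · rw [div_lt_iff₀ hp]
        exact mul_lt_mul_of_pos_left hqN hpi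
    have key : 0 < Real.cos (q * (Real.pi - a) / (2 * M + 1)) -
        (-1) ^ q * Real.cos (q * a / (2 * M + 1)) := by
      have hx0 : 0 ≤ q * (Real.pi - a) / (2 * (M : ℝ) + 1) := by
        have : 0 ≤ Real.pi - a := by linarith
        positivity
      have hy1 : q * a / (2 * (M : ℝ) + 1) < Real.pi := by
        rw [div_lt_iff₀ hp]
        nlinarith
      have hy0 : 0 ≤ q * a / (2 * (M : ℝ) + 1) := by
        have : 0 ≤ a := by linarith
        positivity
      have hxy : q * (Real.pi - a) / (2 * (M : ℝ) + 1) < q * a / (2 * (M : ℝ) + 1) := by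
        apply div_lt_div_of_pos_right _ hp
        apply mul_lt_mul_of_pos_left _ hq0
        linarith
      rcases Nat.even_or_odd q with he | ho
      · rw [he.neg_one_pow, one_mul]
        have := Real.cos_lt_cos_of_nonneg_of_le_pi hx0 hy1.le hxy
        linarith
      · rw [ho.neg_one_pow]
        have h2 : q * a / (2 * (M : ℝ) + 1) < Real.pi - q * (Real.pi - a) / (2 * (M : ℝ) + 1) := by
          have h3 : q * a / (2 * (M : ℝ) + 1) + q * (Real.pi - a) / (2 * (M : ℝ) + 1) =
              q * Real.pi / (2 * M + 1) := by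
            rw [← add_div]
            congr 1
            ring
          have h4 : q * Real.pi / (2 * (M : ℝ) + 1) < Real.pi := by
            rw [div_lt_iff₀ hp]
            nlinarith
          linarith
        have h3 := Real.cos_lt_cos_of_nonneg_of_le_pi hy0 (by linarith) h2
        rw [Real.cos_pi_sub] at h3
        linarith
    have e := F_sum M a q
    rw [← e] at key
    exact (pos_iff_pos_of_mul_pos key).1 hs
  · have h0' : (2 * (M : ℝ) + 1) ≠ 0 := hp.ne'
    have hsin : 0 < Real.sin a := Real.sin_pos_of_pos_of_lt_pi (by linarith) h1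
    have e : ∑ m ∈ Finset.range (2 * M + 1), Real.sin (q * F_b M a m) = Real.sin a := by
      rw [h, show 2 * M + 1 = (M + 1) + M by ring, Finset.sum_range_add]
      have e1 : ∀ m ∈ Finset.range (M + 1),
          Real.sin (((M + 1 + M : ℕ) : ℝ) * F_b M a m) = Real.sin a := by
        intro m hm
        have hm' : m ≤ M := by
          have := Finset.mem_range.1 hm
          omega
        unfold F_b
        rw [if_pos hm', show ((M + 1 + M : ℕ) : ℝ) = 2 * M + 1 by push_cast; ring,
          mul_div_cancel₀ _ h0', show a + 2 * Real.pi * m = a + m * (2 * Real.pi) by ring,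
          Real.sin_add_nat_mul_two_pi]
      have e2 : ∀ m ∈ Finset.range M,
          Real.sin (((M + 1 + M : ℕ) : ℝ) * F_b M a (M + 1 + m)) = - Real.sin a := by
        intro m hm
        have hm' := Finset.mem_range.1 hm
        unfold F_b
        rw [if_neg (by omega), show ((M + 1 + M : ℕ) : ℝ) = 2 * M + 1 by push_cast; ring,
          mul_div_cancel₀ _ h0']
        have e3 : 2 * Real.pi * (2 * (M : ℝ) + 1 - ((M + 1 + m : ℕ) : ℝ)) - a =
            ((M - m : ℕ) : ℝ) * (2 * Real.pi) - a := by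
          rw [Nat.cast_sub hm'.le]
          push_cast
          ring
        rw [e3, Real.sin_nat_mul_two_pi_sub]
      rw [Finset.sum_congr rfl e1, Finset.sum_congr rfl e2, Finset.sum_const, Finset.sum_const,
        Finset.card_range, Finset.card_range]
      simp only [nsmul_eq_mul]
      push_cast
      ring
    rw [e]
    exact hsin

lemma tri_coeff (N : ℕ) (c : ℝ) (l : ℕ) :
    (X ^ (2 * N) + C (2 * c) * X ^ N + 1 : ℝ[X]).coeff l =
      (if l = 2 * N then 1 else 0) + 2 * c * (if l = N then 1 else 0) + (if l = 0 then 1 else 0) := by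
  rw [coeff_add, coeff_add, coeff_C_mul, coeff_X_pow, coeff_X_pow, coeff_one]

/-- **The block lemma for the lifted quadratic polynomials**, `N` odd. -/
theorem tri_odd {ι : Type*} [DecidableEq ι] (a : ι → ℝ) (A : Finset ι)
    (ha : ∀ k ∈ A, 0 < a k ∧ a k < Real.pi) (M : ℕ) (c : ℝ) (hc : 0 < c)
    (h : QP (fun k => Real.cos (a k)) A =
      X ^ (2 * (2 * M + 1)) + C (2 * c) * X ^ (2 * M + 1) + 1) :
    ∃ ε > (0 : ℝ), ∀ j, MonotoneOn (fun t : ℝ => (RP a A t).coeff j) (Set.Icc 0 ε) := by
  have hexp : (X ^ (2 * (2 * M + 1)) + C (2 * c) * X ^ (2 * M + 1) + 1 : ℝ[X]) =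
      expand ℝ (2 * M + 1) (X ^ 2 + C (2 * c) * X + 1) := by
    simp only [map_add, map_mul, map_pow, expand_X, expand_C, map_one]
    ring
  -- the cardinality
  have hcard : A.card = 2 * M + 1 := by
    have h1 := QP_natDegree (fun k => Real.cos (a k)) A
    rw [h, hexp, natDegree_expand] at h1
    have h2 : (X ^ 2 + C (2 * c) * X + 1 : ℝ[X]).natDegree = 2 := by
      compute_degree!
    rw [h2] at h1
    omega
  -- `c < 1`
  have hc1 : c < 1 := by
    have h1 : 0 < (QP (fun k => Real.cos (a k)) A).eval (-1) := by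
      unfold QP
      rw [eval_prod]
      apply Finset.prod_pos
      intro k hk
      have h2 := Real.cos_lt_cos_of_nonneg_of_le_pi (ha k hk).1.le le_rfl (ha k hk).2
      rw [Real.cos_pi] at h2
      simp only [eval_add, eval_sub, eval_mul, eval_pow, eval_X, eval_C, eval_one]
      nlinarith
    rw [h] at h1
    simp only [eval_add, eval_mul, eval_pow, eval_X, eval_C, eval_one] at h1
    rw [Even.neg_one_pow (even_two_mul _), Odd.neg_one_pow (odd_two_mul_add_one M)] at h1
    linarith
  set α : ℝ := Real.arccos (-c) with hα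
  have hcosα : Real.cos α = -c := Real.cos_arccos (by linarith) (by linarith)
  have hα0 : Real.pi / 2 < α := by
    by_contra h1
    push Not at h1
    rw [hα, Real.arccos_le_pi_div_two] at h1
    linarith
  have hα1 : α < Real.pi := by
    rcases (Real.arccos_le_pi (-c)).lt_or_eq with h1 | h1
    · exact h1
    · rw [Real.arccos_eq_pi] at h1
      linarith
  have hα00 : 0 < α := by linarith [Real.pi_pos]
  -- the angles
  have hmap : A.val.map (fun k => Real.cos (a k)) =
      (Finset.range (2 * M + 1)).val.map (fun m => Real.cos (F_b M α m)) := by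
    apply map_eq_of_QP_eq
    · rw [hcard, Finset.card_range]
    · rw [F_prod α (N := 2 * M + 1) (by omega) (F_b M α) (fun m _ => F_b_cos M α m), hcosα]
      have h1 : ∏ k ∈ A, (X ^ 2 - C (2 * Real.cos (a k)) * X + 1 : ℝ[X]) =
          QP (fun k => Real.cos (a k)) A := rfl
      rw [h1, h, hexp]
      congr 2
      rw [mul_neg, C_neg, neg_mul, sub_neg_eq_add]
  have hsum : ∀ f : ℝ → ℝ, ∑ k ∈ A, f (Real.cos (a k)) =
      ∑ m ∈ Finset.range (2 * M + 1), f (Real.cos (F_b M α m)) := by
    intro f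
    have h1 := congrArg (fun s => (Multiset.map f s).sum) hmap
    simp only [Multiset.map_map] at h1
    exact h1
  have hS : ∀ q : ℕ, 0 < q → q ≤ 2 * M + 1 → 0 < ∑ k ∈ A, Real.sin (q * a k) := by
    intro q hq hq'
    have h1 := hsum (fun x => Real.sin (q * Real.arccos x))
    have h2 : ∑ k ∈ A, Real.sin (q * a k) =
        ∑ k ∈ A, Real.sin (q * Real.arccos (Real.cos (a k))) := by
      refine Finset.sum_congr rfl fun k hk => ?_
      rw [Real.arccos_cos (ha k hk).1.le (ha k hk).2.le]
    have h3 : ∑ m ∈ Finset.range (2 * M + 1), Real.sin (q * Real.arccos (Real.cos (F_b M α m))) =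
        ∑ m ∈ Finset.range (2 * M + 1), Real.sin (q * F_b M α m) := by
      refine Finset.sum_congr rfl fun m hm => ?_
      have h4 := F_b_mem hα00 hα1 (Finset.mem_range.1 hm)
      rw [Real.arccos_cos h4.1.le h4.2.le]
    rw [h2, h1, h3]
    exact F_sum_pos M hα0 hα1 q hq hq'
  have hN : ∀ k ∈ A, Real.cos (((2 * M + 1 : ℕ) : ℝ) * a k) = -c := by
    intro k hk
    have h1 : Real.cos (a k) ∈ A.val.map (fun k => Real.cos (a k)) :=
      Multiset.mem_map.2 ⟨k, hk, rfl⟩
    rw [hmap] at h1
    obtain ⟨m, hm, h2⟩ := Multiset.mem_map.1 h1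
    have hm' : m < 2 * M + 1 := Finset.mem_range.1 hm
    have h4 := F_b_mem hα00 hα1 hm'
    have h5 : F_b M α m = a k :=
      Real.injOn_cos ⟨h4.1.le, h4.2.le⟩ ⟨(ha k hk).1.le, (ha k hk).2.le⟩ h2
    rw [← h5, F_b_N M α m hm' (2 * M + 1) rfl, hcosα]
  -- the derivatives
  apply block_of_pos
  intro i hi
  rw [hcard] at hi
  rw [F_wv]
  apply mul_pos two_pos
  rcases Nat.lt_or_ge i (2 * M + 1) with h1 | h1
  · have e : ∀ k ∈ A, ∑ l ∈ Finset.range (i + 1), (QP (fun k => Real.cos (a k)) A).coeff l *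
        Real.sin (((i : ℝ) + 1 - l) * a k) = Real.sin (((i + 1 : ℕ) : ℝ) * a k) := by
      intro k hk
      rw [Finset.sum_eq_single 0]
      · rw [h, tri_coeff, if_neg (by omega), if_neg (by omega), if_pos rfl]
        push_cast
        rw [sub_zero]
        ring
      · intro l hl hl0
        have := Finset.mem_range.1 hl
        rw [h, tri_coeff, if_neg (by omega), if_neg (by omega), if_neg hl0]
        ring
      · intro h2
        exact absurd (Finset.mem_range.2 (by omega)) h2
    rw [Finset.sum_congr rfl e]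
    exact hS (i + 1) (by omega) (by omega)
  · have e : ∀ k ∈ A, ∑ l ∈ Finset.range (i + 1), (QP (fun k => Real.cos (a k)) A).coeff l *
        Real.sin (((i : ℝ) + 1 - l) * a k) =
          Real.sin (((2 * (2 * M + 1) - 1 - i : ℕ) : ℝ) * a k) := by
      intro k hk
      rw [Finset.sum_eq_add 0 (2 * M + 1) (by omega)]
      · rw [h, tri_coeff, tri_coeff, if_neg (by omega), if_neg (by omega), if_pos rfl,
          if_neg (by omega), if_pos rfl, if_neg (by omega)]
        have h2 := hN k hk
        have h3 : ((2 * (2 * M + 1) - 1 - i : ℕ) : ℝ) = 2 * (2 * M + 1) - 1 - i := by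
          rw [Nat.cast_sub (by omega), Nat.cast_sub (by omega)]
          push_cast
          ring
        rw [h3]
        push_cast at h2 ⊢
        have e1 : (2 * (2 * (M : ℝ) + 1) - 1 - i) * a k =
            (2 * M + 1) * a k - ((i : ℝ) + 1 - (2 * M + 1)) * a k := by ring
        have e2 : ((i : ℝ) + 1 - 0) * a k =
            (2 * M + 1) * a k + ((i : ℝ) + 1 - (2 * M + 1)) * a k := by ring
        rw [e1, e2, Real.sin_add, Real.sin_sub, h2]
        ring
      · intro l hl hl0
        have := Finset.mem_range.1 hl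
        rw [h, tri_coeff, if_neg (by omega), if_neg hl0.2, if_neg hl0.1]
        ring
      · intro h2
        exact absurd (Finset.mem_range.2 (by omega)) h2
      · intro h2
        exact absurd (Finset.mem_range.2 (by omega)) h2
    rw [Finset.sum_congr rfl e]
    exact hS _ (by omega) (by omega)

end Pool.Agent.MP_fe2d2a_anTL
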