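import Mathlib
import Pool.Agent.Lib.MP_fe2d2a_anNE.Near
import Pool.Agent.Lib.MP_fe2d2a_anTL.Tri

/-!
The block lemma for the angles whose product is `X ^ (2 * N) + 2 c X ^ N + 1`, `c ≥ 0`, `N ≥ 1`.
-/

set_option autoImplicit false

open Polynomial

namespace Pool.Agent.MP_fe2d2a_anTL

open Pool.Agent.MP_fe2d2a_anEC Pool.Agent.MP_fe2d2a_anNE Pool.Agent.MP_fe2d2a_anR

/-- The coefficients are nonnegative. -/
lemma tri_nonneg (N : ℕ) (c : ℝ) (hc : 0 ≤ c) (j : ℕ) :
    0 ≤ (X ^ (2 * N) + C (2 * c) * X ^ N + 1 : ℝ[X]).coeff j := by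
  rw [tri_coeff]
  split_ifs <;> linarith

/-- **The block lemma for the lifted quadratic polynomials.** -/
theorem tri_block {ι : Type*} [DecidableEq ι] (a : ι → ℝ) (A : Finset ι)
    (ha : ∀ k ∈ A, 0 < a k ∧ a k < Real.pi) (N : ℕ) (c : ℝ) (hc : 0 ≤ c)
    (h : RP a A 0 = X ^ (2 * N) + C (2 * c) * X ^ N + 1) :
    ∃ ε > (0 : ℝ), ∀ j, MonotoneOn (fun t : ℝ => (RP a A t).coeff j) (Set.Icc 0 ε) := by
  have hpos : ∀ j, 0 ≤ (RP a A 0).coeff j := fun j => h ▸ tri_nonneg N c hc j
  have hnear : (Even N ∨ c = 0) → ∃ ε > (0 : ℝ), ∀ j,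
      MonotoneOn (fun t : ℝ => (RP a A t).coeff j) (Set.Icc 0 ε) := by
    intro h1
    apply near_block a A ha hpos
    intro x hx
    have h2 : (RP a A 0).eval (-x) = (RP a A 0).eval x := by
      rw [h]
      simp only [eval_add, eval_mul, eval_pow, eval_X, eval_C, eval_one]
      rw [Even.neg_pow (even_two_mul N)]
      rcases h1 with h1 | h1
      · rw [h1.neg_pow]
      · rw [h1]
        ring
    have h3 : 0 < (RP a A 0).eval x := by
      rw [h]
      simp only [eval_add, eval_mul, eval_pow, eval_X, eval_C, eval_one]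
      have := pow_pos hx (2 * N)
      have := pow_pos hx N
      positivity
    rw [h2]
    linarith
  rcases Nat.even_or_odd N with h1 | h1
  · exact hnear (Or.inl h1)
  · rcases hc.eq_or_lt with h2 | h2
    · exact hnear (Or.inr h2.symm)
    · obtain ⟨M, rfl⟩ := h1
      apply tri_odd a A ha M c h2
      rw [← h, RP_eq]
      simp only [zero_add]

end Pool.Agent.MP_fe2d2a_anTL
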